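import Pool.Agent.helper37.ND.Spec
import Pool.Agent.helper59.FI.Base

/-!
# Row nd:GAC (MP_baa4d7_al): the action on the characters of the centraliser
-/

set_option autoImplicit false

namespace Pool.Agent.ND

open Pool.Agent.helper58.DC Pool.Agent.DI Pool.Agent.GR Pool.Agent.OB Pool.Agent.DR Pool.Agent.FI Pool.Agent.FI3 Pool.Agent.FI4 Pool.Agent.FI4I Pool.Agent.LE Pool.Agent.L5 Pool.Agent.NAB

theorem GAC_triv {G : Type} [Group G] [Finite G] {K : Subgroup G} {θ : G → ℂ} (hθ : θ ∈ IrrOn K) {k : G} (hk : k ∈ K) :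
    cjF k θ = θ := by
  funext x
  show funMap (MulAut.conj k) θ x = θ x
  rw [funMap_apply]
  have h := IrrOn_conj hθ (K.inv_mem hk) x
  rwa [inv_inv] at h

theorem GAC (hGFX : GFX_stmt) (hGOS : GOS_stmt) (hGOB : GOB_stmt) (hGST : GST_stmt) (hGBC : GBC_stmt) : GAC_stmt := by
  classical
  intro p e m t M hS G _ _ χ Z z x hz A₀ hA₀ hCA
  have hp : p.Prime := hS.1
  have hem : m + 3 ≤ e := by have := hz.em; omega
  obtain ⟨o1, o2, o3, o4⟩ := hGOB p e t hp G hz.tx Z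
  have hbc := (hGBC p e m M hS hem G χ (⊤ : Subgroup G) Z).2.2.2
  let act : A₀ → XX p e m M χ Z → XX p e m M χ Z := fun a θ => ⟨cjF (a : G) (θ : G → ℂ), hbc a (hA₀ a.2) θ θ.2⟩
  have hact : ∀ a θ, (act a θ : G → ℂ) = cjF (a : G) (θ : G → ℂ) := fun a θ => rfl
  have htriv : ∀ c ∈ cz Z, ∀ θ : XX p e m M χ Z, cjF c (θ : G → ℂ) = θ := fun c hc θ => GAC_triv θ.2.1 hc
  have hmul : ∀ (a b : G) (θ : G → ℂ), cjF (a * b) θ = cjF a (cjF b θ) := fun a b θ => funMap_mul a b θ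
  have hone : ∀ θ : G → ℂ, cjF (1 : G) θ = θ := fun θ => funMap_one' θ
  -- the stabiliser
  let A' : XX p e m M χ Z → Subgroup G := fun θ =>
    { carrier := {a | a ∈ A₀ ∧ orb Z t (θ : G → ℂ) (cjF a (θ : G → ℂ))}
      one_mem' := ⟨A₀.one_mem, by rw [hone]; exact o1 _⟩
      mul_mem' := by
        rintro a b ⟨ha, ha'⟩ ⟨hb, hb'⟩
        refine ⟨A₀.mul_mem ha hb, ?_⟩
        rw [hmul]
        exact o3 _ _ _ ha' (o4 a (hA₀ ha) _ _ hb')
      inv_mem' := by
        rintro a ⟨ha, ha'⟩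
        refine ⟨A₀.inv_mem ha, ?_⟩
        have h1 := o4 a⁻¹ (hA₀ (A₀.inv_mem ha)) _ _ ha'
        rw [← hmul, inv_mul_cancel, hone] at h1
        exact o2 _ _ h1 }
  have hA'mem : ∀ (θ : XX p e m M χ Z) (a : G), a ∈ A' θ ↔ a ∈ A₀ ∧ orb Z t (θ : G → ℂ) (cjF a (θ : G → ℂ)) :=
    fun θ a => Iff.rfl
  have hA'le : ∀ θ, A' θ ≤ A₀ := fun θ a ha => ha.1
  have hCA' : ∀ θ, cz Z ≤ A' θ := fun θ c hc => ⟨hCA hc, by rw [htriv c hc θ]; exact o1 _⟩
  have hfx := fun θ : XX p e m M χ Z => hGFX p e m t M hS G χ Z z x hz θ θ.2 (A' θ) ((hA'le θ).trans hA₀) (hCA' θ)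
    (fun a ha => ha.2)
  have heqv : Equivalence (fun θ θ' : XX p e m M χ Z => orb Z t (θ : G → ℂ) (θ' : G → ℂ)) :=
    ⟨fun θ => o1 _, fun h => o2 _ _ h, fun h h' => o3 _ _ _ h h'⟩
  have hfix : ∀ θ : XX p e m M χ Z, ∃ y : XX p e m M χ Z, orb Z t (θ : G → ℂ) (y : G → ℂ) ∧
      (∀ a : A₀, orb Z t (θ : G → ℂ) (act a θ : G → ℂ) → act a y = y) ∧
      ∀ (a : A₀) (y' : XX p e m M χ Z), orb Z t (θ : G → ℂ) (y' : G → ℂ) → y' ≠ y → act a y' = y' →
        a ∈ (cz Z).subgroupOf A₀ := by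
    intro θ
    obtain ⟨⟨y, hy, hy1, hy2⟩, -, -⟩ := hfx θ
    have hyX : y ∈ GS p e m M χ (cz Z) Z := by
      obtain ⟨ν, rfl⟩ := hy
      exact (hGST p e m t M hS G χ Z z x hz θ θ.2 ν).1
    refine ⟨⟨y, hyX⟩, hy, fun a ha => Subtype.ext (hy1 a ⟨a.2, ha⟩), fun a y' hy' hne hfa => ?_⟩
    have h1 : cjF (a : G) (y' : G → ℂ) = y' := congrArg Subtype.val hfa
    have haA' : (a : G) ∈ A' θ := by
      refine ⟨a.2, ?_⟩
      have h2 := o4 a (hA₀ a.2) _ _ hy'
      rw [h1] at h2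
      exact o3 _ _ _ hy' (o2 _ _ h2)
    rw [Subgroup.mem_subgroupOf]
    exact hy2 a haA' y' hy' (fun h => hne (Subtype.ext h)) h1
  have hcard : ∀ θ : XX p e m M χ Z, Nat.card {a : A₀ // orb Z t (θ : G → ℂ) (act a θ : G → ℂ)} = Nat.card (A' θ) := by
    intro θ
    exact Nat.card_congr
      { toFun := fun a => ⟨(a.1 : G), ⟨a.1.2, a.2⟩⟩
        invFun := fun a => ⟨⟨(a : G), a.2.1⟩, a.2.2⟩
        left_inv := fun a => rfl
        right_inv := fun a => rfl }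
  have hcK : Nat.card ((cz Z).subgroupOf A₀) = Nat.card (cz Z) :=
    Nat.card_congr (Subgroup.subgroupOfEquivOfLe hCA).toEquiv
  have hsz : ∀ θ : XX p e m M χ Z, p ^ 3 ≤ Nat.card {y : XX p e m M χ Z // orb Z t (θ : G → ℂ) (y : G → ℂ)} := by
    intro θ
    have h1 := (hGOS p e m t M hS G χ Z z x hz θ θ.2).1
    have h2 : Nat.card {y : XX p e m M χ Z // orb Z t (θ : G → ℂ) (y : G → ℂ)} =
        Nat.card {θ' : G → ℂ // orb Z t (θ : G → ℂ) θ'} := by
      refine Nat.card_congr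
        { toFun := fun y => ⟨(y.1 : G → ℂ), y.2⟩
          invFun := fun y => ⟨⟨(y : G → ℂ), ?_⟩, y.2⟩
          left_inv := fun a => rfl
          right_inv := fun a => rfl }
      obtain ⟨ν, hν⟩ := y.2
      rw [hν]
      exact (hGST p e m t M hS G χ Z z x hz θ θ.2 ν).1
    rw [h2]
    exact h1
  have hp2 := hp.two_le
  refine ⟨act, hact, ?_, fun hE => ⟨?_, ?_⟩⟩
  · exact
      { one := fun θ => Subtype.ext (hone _)
        mul := fun s t θ => Subtype.ext (hmul _ _ _)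
        triv := fun k hk θ => Subtype.ext (htriv k (Subgroup.mem_subgroupOf.1 hk) θ)
        eqv := heqv
        pres := fun a θ θ' h => o4 a (hA₀ a.2) _ _ h
        fix := hfix
        st := fun θ => by
          rw [hcard θ, hcK]
          exact (hfx θ).2.1
        sz := fun θ => by
          refine le_trans ?_ (hsz θ)
          obtain ⟨q, rfl⟩ : ∃ q, p = q + 2 := ⟨p - 2, by omega⟩
          have h1 : q + 2 - 1 = q + 1 := by omega
          rw [h1]
          nlinarith [Nat.zero_le (q * q * q), Nat.zero_le (q * q)] }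
  · exact
      { one := fun θ => Subtype.ext (hone _)
        mul := fun s t θ => Subtype.ext (hmul _ _ _)
        triv := fun k hk θ => Subtype.ext (htriv k (Subgroup.mem_subgroupOf.1 hk) θ)
        eqv := heqv
        pres := fun a θ θ' h => o4 a (hA₀ a.2) _ _ h
        fix := hfix
        st := fun θ => by
          rw [hcard θ, hcK, one_mul]
          exact Subgroup.card_le_of_le ((hfx θ).2.2 ((hA'le θ).trans hE))
        sz := fun θ => by
          refine le_trans ?_ (hsz θ)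
          have h1 : 2 ^ 3 ≤ p ^ 3 := Nat.pow_le_pow_left hp2 3
          omega }
  · intro θ a ha
    rw [Subgroup.mem_subgroupOf]
    exact (hfx θ).2.2 ((hA'le θ).trans hE) ⟨a.2, ha⟩

end Pool.Agent.ND
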