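import Pool.Agent.helper37.ND.Spec
import Pool.Agent.helper18.FI.VN1

/-!
# Row nd:GVN (MP_baa4d7_al): characters vanish outside of the sections of the defect group
-/

set_option autoImplicit false

namespace Pool.Agent.ND

open Pool.Agent.helper58.DC Pool.Agent.DI Pool.Agent.GR Pool.Agent.OB Pool.Agent.DR Pool.Agent.FI Pool.Agent.FI3 Pool.Agent.FI4 Pool.Agent.FI4I Pool.Agent.LE Pool.Agent.L5 Pool.Agent.NAB

theorem GVN (hBRY : BRY_stmt) (hSTC : STC_stmt) (hCNTL : CNTL_stmt) (hSYL : SYL_stmt) (hB2 : B2_stmt) : GVN_stmt := by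
  intro p M hS G _ _ K θ hθ D y hdef u hu hup v hv hvr hne
  have : Fact p.Prime := ⟨hS.pr⟩
  obtain ⟨_, _, _, _, _, _, h7, h8, _⟩ := hSYL p G
  by_contra hcon
  have hempty : Bq M K (Cz K u) θ = ∅ := by
    rw [Set.eq_empty_iff_forall_notMem]
    rintro η ⟨hη, hη'⟩
    have e : Cz K u = K ⊓ cz (Subgroup.zpowers u) := by
      rw [h7]
      rfl
    rw [e] at hη
    obtain ⟨l, hl, hr⟩ := hCNTL p M hS G K (Subgroup.zpowers u) (h8 u hup) (by
      rw [Subgroup.zpowers_le]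
      exact hu) η hη θ hη' D y hdef
    exact hcon ⟨l, hl, hr u (Subgroup.mem_zpowers u)⟩
  have h13 := hBRY p M hS G K u hu hup θ v hv v hv hvr hvr
  have h14 : Sf (Bq M K (Cz K u) θ) v v = 0 := by
    rw [hempty]
    unfold Sf
    exact finsum_mem_empty
  rw [h14] at h13
  exact hne (VN1_sq _ ((hB2 G K).1.subset fun φ h => h.1) _ (fun φ h => hSTC G K φ h.1 _) h13 θ ⟨hθ, SB.refl K θ⟩)

end Pool.Agent.ND
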